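import Pool.Agent.U469.DE.Scale
import Pool.Agent.U324.DE.TestOdd
import Pool.Agent.U411.DE.GeoProp

/-!
# Leaky curves with a double eigenvalue below the essential spectrum

For every coupling `α > 0` there is a curve `γ` with (a1), (a2), (a3) such that the operator
`-Δ - α δ(x - Γ)` has an eigenvalue of multiplicity at least two below `-α² / 4`.

For `α = 1` the curve `Γ_t`, `0 < t < 20`, is symmetric under `(x, y) ↦ (-x, y)`: horizontal pieces
`y = t` for `|x| < 1/20`, `y = 0` for `1/20 < |x| < 102`, `y = -1/4` for `|x| > 102`, joined by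
vertical walls. For `t = 0` the form has at most one even state below the essential spectrum, for
all `t` it has an odd one, and for `t = 20` the two walls of the narrow hairpin act like one line
with coupling `2`, which gives two even states below every odd one. The second even and the first
odd min-max value are continuous in `t`, so they coincide for some `t`.
-/

set_option autoImplicit false

open MeasureTheory Filter Topology Complex
open scoped ComplexConjugate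

namespace Pool.Agent.Results.MP_e4073d_mp.DoubleEigenvalue

noncomputable section

/-- the `C¹` functions with compact support in the plane; they are a form core of `H_{α,Γ}` -/
def TestFun (φ : ℝ × ℝ → ℂ) : Prop := ContDiff ℝ 1 φ ∧ HasCompactSupport φ

/-- the partial derivative in the first variable -/
def dX (φ : ℝ × ℝ → ℂ) (p : ℝ × ℝ) : ℂ := fderiv ℝ φ p (1, 0)

/-- the partial derivative in the second variable -/
def dY (φ : ℝ × ℝ → ℂ) (p : ℝ × ℝ) : ℂ := fderiv ℝ φ p (0, 1)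

/-- the sesquilinear form `∫ conj ∇φ · ∇ψ` -/
def gradForm (φ ψ : ℝ × ℝ → ℂ) : ℂ :=
  (∫ p : ℝ × ℝ, conj (dX φ p) * dX ψ p) + ∫ p : ℝ × ℝ, conj (dY φ p) * dY ψ p

/-- the sesquilinear form of `H_{α,Γ}`, `Γ` the range of `γ` -/
def leakyForm (α : ℝ) (γ : ℝ → ℝ × ℝ) (φ ψ : ℝ × ℝ → ℂ) : ℂ :=
  gradForm φ ψ - α * ∫ s : ℝ, conj (φ (γ s)) * ψ (γ s)

/-- `u` lies in the eigenspace of `H_{α,Γ}` to `lam`: it is in `L²`, and there are test functions
`ψ n` which converge to `u` in `L²` and whose gradients are a Cauchy sequence in `L²` (that is, `u`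
is in the form domain `W^{1,2}`), such that `a(φ, u) = lim a(φ, ψ n) = lam ⟨φ, u⟩` for all test
functions `φ` -/
def InEigenspace (α : ℝ) (γ : ℝ → ℝ × ℝ) (lam : ℝ) (u : ℝ × ℝ → ℂ) : Prop :=
  MemLp u 2 (volume : Measure (ℝ × ℝ)) ∧ ∃ ψ : ℕ → ℝ × ℝ → ℂ, (∀ n, TestFun (ψ n)) ∧
    Tendsto (fun n => ∫ p : ℝ × ℝ, ‖ψ n p - u p‖ ^ 2) atTop (𝓝 0) ∧
    Tendsto (fun k : ℕ × ℕ => (gradForm (ψ k.1 - ψ k.2) (ψ k.1 - ψ k.2)).re) atTop (𝓝 0) ∧
    ∀ φ, TestFun φ →
      Tendsto (fun n => leakyForm α γ φ (ψ n)) atTop (𝓝 (lam * ∫ p : ℝ × ℝ, conj (φ p) * u p))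

/-- linear independence in `L²` -/
def Independent (u v : ℝ × ℝ → ℂ) : Prop :=
  ∀ a b : ℂ, (∀ᵐ p : ℝ × ℝ, a * u p + b * v p = 0) → a = 0 ∧ b = 0

/-- the Euclidean distance in the plane -/
def edist2 (p q : ℝ × ℝ) : ℝ := √((p.1 - q.1) ^ 2 + (p.2 - q.2) ^ 2)

/-- `γ` is continuous and, off a finite set of parameters, locally affine with a velocity of length
one: a polygonal curve with finitely many vertices, parametrised by arc length -/
def PolygonalArcLength (γ : ℝ → ℝ × ℝ) : Prop := Continuous γ ∧ ∃ S : Finset ℝ, ∀ s ∉ S,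
  ∃ v : ℝ × ℝ, v.1 ^ 2 + v.2 ^ 2 = 1 ∧ ∀ᶠ r in 𝓝 s, γ r = γ s + (r - s) • v

/-- (a1) -/
def A1 (γ : ℝ → ℝ × ℝ) : Prop :=
  ∃ c : ℝ, 0 < c ∧ c < 1 ∧ ∀ s s' : ℝ, c * |s - s'| ≤ edist2 (γ s) (γ s')

/-- (a2) -/
def A2 (γ : ℝ → ℝ × ℝ) : Prop :=
  ∃ d μ ω : ℝ, 0 < d ∧ 1 / 2 < μ ∧ 0 < ω ∧ ω < 1 ∧ ∀ s s' : ℝ, s ≠ s' → ω < s / s' → s / s' < ω⁻¹ →
    1 - edist2 (γ s) (γ s') / |s - s'| ≤ d * (1 + |s + s'| ^ (2 * μ)) ^ (-(1 / 2) : ℝ)

/-- (a3) -/
def A3 (γ : ℝ → ℝ × ℝ) : Prop := ∃ s s' : ℝ, edist2 (γ s) (γ s') < |s - s'|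

open Pool.Agent.U469.DE in
/-- For every `α > 0` there is a curve with (a1)-(a3) for which an eigenvalue below `-α² / 4` has
multiplicity at least two. -/
theorem result : ∀ α : ℝ, 0 < α → ∃ γ : ℝ → ℝ × ℝ, PolygonalArcLength γ ∧ A1 γ ∧ A2 γ ∧ A3 γ ∧
    ∃ lam : ℝ, lam < -(1 / 4) * α ^ 2 ∧ ∃ u v : ℝ × ℝ → ℂ,
      InEigenspace α γ lam u ∧ InEigenspace α γ lam v ∧ Independent u v := by
  intro α hα
  obtain ⟨t, ht, m, hm, u, v, hlin, heig⟩ := main Pool.Agent.U688.DE.jobCpt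
    (Pool.Agent.U473.DE.jobOdd Pool.Agent.U913.DE.jobHor) Pool.Agent.U492.DE.jobEven
    Pool.Agent.U324.DE.jobTestOdd Pool.Agent.U324.DE.jobTestEven Pool.Agent.U411.DE.t_GeoInt
  obtain ⟨g0, g1, g2, g3⟩ := Pool.Agent.U411.DE.t_GeoProp t ht
  have hα2 : 0 < α ^ 2 := by positivity
  have key : ∀ w : H2, w = u ∨ w = v →
      InEigenspace α (dilCurve α (gam t)) (α ^ 2 * (m - 1 / 4)) (dil α w) := by
    intro w hw
    obtain ⟨ψ, hψ, h1, h2, h3⟩ := heig w hw
    refine ⟨memLp_dil (Lp.memLp w) hα.ne', fun n => dil α (ψ n), fun n => dil_core (hψ n) hα.ne',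
      ?_, ?_, ?_⟩
    · have h4 := h1.const_mul (α ^ 2)⁻¹
      rw [mul_zero] at h4
      refine h4.congr fun n => ?_
      exact (int_dil' (fun p => ‖ψ n p - w p‖ ^ 2) α).symm
    · refine h2.congr fun k => ?_
      have h4 := grF_dil (Core.sub_mem (hψ k.1) (hψ k.2)) (Core.sub_mem (hψ k.1) (hψ k.2)) hα.ne'
      rw [← h4]
      rfl
    · intro φ hφ
      have hφ' : dil α⁻¹ φ ∈ Core := dil_core hφ (inv_ne_zero hα.ne')
      have h5 := h3 _ hφ'
      have h6 : ((α ^ 2 * (m - 1 / 4) : ℝ) : ℂ) * ∫ p : ℝ × ℝ, conj (φ p) * dil α w p =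
          ((m - 1 / 4 : ℝ) : ℂ) * ∫ p : ℝ × ℝ, conj (dil α⁻¹ φ p) * w p := by
        have h7 := int_dil (fun p => conj (dil α⁻¹ φ p) * w p) α
        have h8 : (∫ p : ℝ × ℝ, conj (φ p) * dil α w p) =
            ∫ p : ℝ × ℝ, conj (dil α⁻¹ φ (α • p)) * w (α • p) := by
          congr 1
          funext p
          have : dil α⁻¹ φ (α • p) = φ p := congrFun (dil_dil hα.ne' φ) p
          rw [this]
          rfl
        rw [h8, h7, ← mul_assoc]
        congr 1
        push_cast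
        have : (α : ℂ) ≠ 0 := by exact_mod_cast hα.ne'
        field_simp
      rw [h6]
      refine h5.congr fun n => ?_
      have h9 := grF_dil hφ' (hψ n) hα.ne'
      have h10 := line_dil (gam t) (dil α⁻¹ φ) (ψ n) hα
      rw [dil_dil hα.ne'] at h9 h10
      rw [← h9, ← h10]
      rfl
  refine ⟨dilCurve α (gam t), arc_dil g0 hα, chord_dil g1 hα, straight_dil g2 hα,
    notStraight_dil g3 hα, α ^ 2 * (m - 1 / 4), by nlinarith, dil α u, dil α v,
    key u (Or.inl rfl), key v (Or.inr rfl), ?_⟩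
  intro a b hab
  refine hlin a b ?_
  refine ae_dil (inv_ne_zero hα.ne') (P := fun p => a * u p + b * v p = 0) ?_
  rw [inv_inv]
  exact hab

end

end Pool.Agent.Results.MP_e4073d_mp.DoubleEigenvalue
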